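import Pool.Agent.H92.RR.Targets
import Pool.Agent.H23.RR.RPRS
import Pool.Agent.H79.RR.NZP

/-!
# MP_34b97f_an, row RODC: the coordinates are uniformly almost periodic along multiples of `q`
-/

open MeasureTheory ProbabilityTheory Filter Topology Finset
open scoped ENNReal

namespace Pool.Agent.H95.RR

open Pool.Agent.H89.MT
open Pool.Agent.H92.RR

theorem lavg_shift_le (d : ℕ → ℝ) (h0 : ∀ n, 0 ≤ d n) (h2 : ∀ n, d n ≤ 2) (t N : ℕ) (hN : 3 ≤ N) :
    lavg N (fun n => d (n + t)) ≤ lavg N d + 4 * t / Real.log N := by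
  have h := Pool.Agent.H79.RR.sum_shift t (fun n => d n / 2) (fun n => by have := h0 n; positivity)
    (fun n => by have := h2 n; linarith) N
  have hlog : 0 < Real.log N := Real.log_pos (by
    have : (3 : ℝ) ≤ N := by exact_mod_cast hN
    linarith)
  unfold lavg
  rw [← add_div]
  refine div_le_div_of_nonneg_right ?_ hlog.le
  have e1 : ∑ n ∈ Icc 1 N, d (n + t) / n = 2 * ∑ n ∈ Icc 1 N, d (n + t) / 2 / (n : ℝ) := by
    rw [Finset.mul_sum]
    exact Finset.sum_congr rfl fun n _ => by ring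
  have e2 : ∑ n ∈ Icc 1 N, d n / n = 2 * ∑ n ∈ Icc 1 N, d n / 2 / (n : ℝ) := by
    rw [Finset.mul_sum]
    exact Finset.sum_congr rfl fun n _ => by ring
  rw [e1, e2]
  linarith

theorem pf_RODC : T_ODC := by
  intro u α hα hR hG ε hε
  obtain ⟨q, Q, hq, hQ, hev⟩ := hR (ε / 3) (by positivity)
  refine ⟨q, hq, fun m j => ?_⟩
  have hinv : MeasurePreserving shift α α := Pool.Agent.H23.RR.pf_RPRS u α hα hG
  -- periodicity
  have hQm : ∀ (m : ℕ) (k : ℤ), Q (k + q * m) = Q k := by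
    intro m
    induction m with
    | zero => intro k; simp
    | succ m ih =>
      intro k
      have e : k + (q : ℤ) * ((m + 1 : ℕ) : ℤ) = (k + q * m) + q := by push_cast; ring
      rw [e, hQ, ih]
  -- independence of the coordinate
  set F : ℤ → C(X, ℝ) := fun j => ⟨fun x => |(x (j + q * m) : ℝ) - x j|, by fun_prop⟩ with hF
  have hstep : ∀ j : ℤ, ∫ x, F (j + 1) x ∂α = ∫ x, F j x ∂α := by
    intro j
    have h1 : ∫ x, F j x ∂α = ∫ x, F j x ∂(α.map shift) := by rw [hinv.map_eq]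
    rw [h1, integral_map hinv.measurable.aemeasurable
      (F j).continuous.stronglyMeasurable.aestronglyMeasurable]
    refine integral_congr_ae (Eventually.of_forall fun x => ?_)
    change |(x (j + 1 + q * m) : ℝ) - x (j + 1)| = |(x (j + q * m + 1) : ℝ) - x (j + 1)|
    have e : j + 1 + (q : ℤ) * m = j + q * m + 1 := by ring
    rw [e]
  have hall : ∀ j : ℤ, ∫ x, F j x ∂α = ∫ x, F 0 x ∂α := by
    intro j
    induction j using Int.induction_on with
    | zero => rfl
    | succ i ih => rw [hstep, ih]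
    | pred i ih =>
      rw [← ih]
      have := hstep (-(i : ℤ) - 1)
      rw [show -(i : ℤ) - 1 + 1 = -(i : ℤ) by ring] at this
      exact this.symm
  change ∫ x, F j x ∂α ≤ ε
  rw [hall j]
  -- the coordinate 0
  set d : ℕ → ℝ := fun n => |(u n : ℝ) - Q n| with hd
  have hd0 : ∀ n, 0 ≤ d n := fun n => abs_nonneg _
  have hd2 : ∀ n, d n ≤ 2 := by
    intro n
    have h1 : |(u n : ℝ)| ≤ 1 := abs_le.2 ⟨(u n).2.1, (u n).2.2⟩
    have h2 : |(Q n : ℝ)| ≤ 1 := abs_le.2 ⟨(Q n).2.1, (Q n).2.2⟩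
    calc d n ≤ |(u n : ℝ)| + |(Q n : ℝ)| := abs_sub _ _
      _ ≤ 2 := by linarith
  have hlim := hG (F 0)
  have hlog : Tendsto (fun N : ℕ => 4 * ((q * m : ℕ) : ℝ) / Real.log N) atTop (𝓝 0) :=
    tendsto_const_nhds.div_atTop (Real.tendsto_log_atTop.comp tendsto_natCast_atTop_atTop)
  have hsmall : ∀ᶠ N : ℕ in atTop, 4 * ((q * m : ℕ) : ℝ) / Real.log N ≤ ε / 3 :=
    (hlog.eventually (gt_mem_nhds (show (0 : ℝ) < ε / 3 by positivity))).mono fun _ h => h.le
  refine le_of_tendsto hlim ?_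
  filter_upwards [hev, hsmall, eventually_ge_atTop 3] with N h1 h2 h3
  have hlogN : 0 < Real.log N := Real.log_pos (by
    have : (3 : ℝ) ≤ N := by exact_mod_cast h3
    linarith)
  have h4 : lavg N (fun n => F 0 (pt u n)) ≤ lavg N (fun n => d (n + q * m)) + lavg N d := by
    unfold lavg
    rw [← add_div, ← Finset.sum_add_distrib]
    refine div_le_div_of_nonneg_right (Finset.sum_le_sum fun n hn => ?_) hlogN.le
    rw [← add_div]
    refine div_le_div_of_nonneg_right ?_ (Nat.cast_nonneg n)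
    have hn1 : 1 ≤ n := (Finset.mem_Icc.1 hn).1
    change |(pt u n (0 + q * m) : ℝ) - pt u n 0| ≤ |(u (n + q * m) : ℝ) - Q ((n + q * m : ℕ) : ℤ)| +
      |(u n : ℝ) - Q (n : ℤ)|
    have e1 : pt u n (0 + q * m) = u (n + q * m) := by
      unfold pt
      have hp : 0 < (n : ℤ) + (0 + (q : ℤ) * m) := by positivity
      rw [if_pos hp]
      congr 1
      have : (n : ℤ) + (0 + (q : ℤ) * m) = ((n + q * m : ℕ) : ℤ) := by push_cast; ring
      rw [this, Int.toNat_natCast]
    have e2 : pt u n 0 = u n := by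
      unfold pt
      have hp : 0 < (n : ℤ) + 0 := by positivity
      rw [if_pos hp]
      congr 1
    have e3 : Q ((n + q * m : ℕ) : ℤ) = Q (n : ℤ) := by
      have : ((n + q * m : ℕ) : ℤ) = (n : ℤ) + q * m := by push_cast; ring
      rw [this, hQm]
    rw [e1, e2, e3]
    calc |(u (n + q * m) : ℝ) - u n| = |((u (n + q * m) : ℝ) - Q (n : ℤ)) - ((u n : ℝ) - Q (n : ℤ))| := by
          congr 1; ring
      _ ≤ _ := abs_sub _ _
  have h5 := lavg_shift_le d hd0 hd2 (q * m) N h3
  linarith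

end Pool.Agent.H95.RR
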